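import Mathlib
import Pool.Agent.W2helper39.MU.Ari
import Pool.Agent.W2helper39.MU.Fin
import Pool.Agent.W2helper39.MU.Grp
import Pool.Agent.W2helper39.MU.EntM
import Pool.Agent.W2helper39.MU.Conv
import Pool.Agent.W2helper39.MU.Lgt

/-!
# MP_e97a4d_nt: integral points and entire curves of bounded complexity

`K` is a number field with the embedding `σ` in `ℂ`. `U = {G = 0, Q ≠ 0}` is an arbitrary
quasi-projective variety over `K`, or a family of such varieties: the coordinates are the parameters
`s` and the projective coordinates `x`, and `G`, `Q` are polynomials in `s` and `x` with coefficients in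
the ring of integers (affine varieties: the equation `x_0 = 1`, `Q = 1`). `V'` is an arbitrary closed
set `{H = 0}`. The complexity `m` is fixed. `Pool/Agent/W2helper39/MU/Defs.lean` contains the
definitions of the following six conditions.

`EntireIn` (condition (i) for the curves of complexity `m`): all nonconstant entire curves in a fibre of
`U` whose coordinates are sums of `m` entire functions, each of them zero or without zeros, lie in
`V'`.

`IntegralFinite` (condition (ii) for the points of complexity `m`): for all number fields `L ⊇ K`, all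
finite `S` and all `s` over `L` there are only finitely many points `x` of the fibre of `U` over `s`
outside `V'` whose coordinates are sums of `m` elements, each of them zero or an `S`-unit, and for which
`Q (x)` is an `S`-unit.

`GmIn`: all nonconstant maps from the punctured line to a fibre of `U` given by Laurent polynomials with
at most `m` terms lie in `V'`.

`EntireBound`: for the curves in `V = {G = 0}` with moving parameters `s`, not in `V'`, whose coordinates
are sums of `m` terms `a u`, `a` and `u` entire, `u` without zeros, and with `Q = q v`, `q` and `v`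
entire, `v` without zeros: the characteristic functions of all ratios of coordinates are bounded by a
constant times `1 + log ρ` and the characteristic functions of all `s`, `a` and `q`, for all radii
outside a set of finite measure.

`IntegralBound`: for the points over `L` in `V = {G = 0}`, not in `V'`, whose coordinates are sums of
`m` terms `a u`, `u` an `S`-unit, and with `Q = q v`, `v` an `S`-unit: the height is bounded by a
constant, which depends on `L` and `S`, times `1` and the heights of all `s`, `a` and `q`.

`GroupFinite`: the finiteness for the complex points whose coordinates are sums of `m` elements, each of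
them zero or in a finitely generated group of complex numbers.
-/

set_option autoImplicit false

namespace Pool.Agent.Results.MP_e97a4d_nt.BoundedComplexity

open MvPolynomial
open scoped NumberField
open Pool.Agent.Results.MP_70ba79_ag.SparseCurves
open Pool.Agent.W2helper39.MU

/-- All six conditions hold. -/
def AllSix {K : Type} [Field K] [NumberField K] {ι κ : Type} {r M : ℕ} (σ : K →+* ℂ) (m : ℕ)
    (G : ι → MvPolynomial (Fin r ⊕ Fin M) (𝓞 K)) (Q : MvPolynomial (Fin r ⊕ Fin M) (𝓞 K))
    (H : κ → MvPolynomial (Fin r ⊕ Fin M) (𝓞 K)) : Prop :=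
  EntireIn σ m G Q H ∧ IntegralFinite m G Q H ∧ GmIn σ m G Q H ∧ EntireBound σ m G Q H ∧
    IntegralBound m G Q H ∧ GroupFinite σ m G Q H

/-- The point `z` is in `X - D`, where `X` is given by the forms `G`, and `D` is the zero set of `Q`
on `X`. -/
def Off {K : Type} [Field K] {g n : ℕ} (σ : K →+* ℂ) (G : Fin g → MvPolynomial (Fin n) (𝓞 K))
    (Q : MvPolynomial (Fin n) (𝓞 K)) (z : Fin n → ℂ) : Prop :=
  z ≠ 0 ∧ OnX (fun j => map (emb σ) (G j)) z ∧ aeval z (map (emb σ) Q) ≠ 0

/-- `X`, given by the forms `G`, is a projective variety of dimension `N`, irreducible and smooth over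
`ℂ`; the forms `E i j`, of degree `d i j`, give the components of a divisor `D` with strict normal
crossings of `X` over `ℂ`; the zero set on `X` of the form `Q` is `D`, and `X - D` is nonempty and of
log general type. -/
def GeneralTypePair {K : Type} [Field K] (σ : K →+* ℂ) {N s g q w : ℕ}
    (G : Fin g → MvPolynomial (Fin (N + 1 + s)) (𝓞 K))
    (E : Fin q → Fin w → MvPolynomial (Fin (N + 1 + s)) ℂ) (d : Fin q → Fin w → ℕ)
    (Q : MvPolynomial (Fin (N + 1 + s)) (𝓞 K)) : Prop :=
  (∀ j, ∃ e, (G j).IsHomogeneous e) ∧ (∀ i j, (E i j).IsHomogeneous (d i j)) ∧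
    (∃ δ, Q.IsHomogeneous δ) ∧ DimGE N (fun j => map (emb σ) (G j)) ∧
    SmoothPair s (fun j => map (emb σ) (G j)) E ∧ Irred (fun j => map (emb σ) (G j)) ∧
    LogGeneralType N (fun j => map (emb σ) (G j)) E d ∧
    (∀ z : Fin (N + 1 + s) → ℂ, z ≠ 0 → OnX (fun j => map (emb σ) (G j)) z →
      (aeval z (map (emb σ) Q) ≠ 0 ↔ ∀ i, ∃ j, aeval z (E i j) ≠ 0)) ∧ ∃ z, Off σ G Q z

/-- (1) For every number field `K`, every family of quasi-projective varieties over `K`, every `V'` and
every `m` the six conditions are equivalent.

(2) Let `X` be a projective variety given by forms `G j` over the ring of integers of `K`, irreducible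
and smooth over `ℂ`, let `D` be a divisor of `X` with strict normal crossings, which is the zero set on
`X` of the form `Q` over the ring of integers of `K`, and let `U = X - D` be nonempty and of log general
type. For every `m` there is a form `H` over the ring of integers of `K` which does not vanish on all of
`U`, such that the six conditions hold for `V' = {H = 0}` (there are no parameters: `r = 0`). -/
theorem result :
    (∀ (K : Type) [Field K] [NumberField K] (σ : K →+* ℂ) (m r M : ℕ) (ι κ : Type) [Finite ι]
      (G : ι → MvPolynomial (Fin r ⊕ Fin M) (𝓞 K)) (Q : MvPolynomial (Fin r ⊕ Fin M) (𝓞 K))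
      (H : κ → MvPolynomial (Fin r ⊕ Fin M) (𝓞 K)),
      List.TFAE [EntireIn σ m G Q H, IntegralFinite m G Q H, GmIn σ m G Q H,
        EntireBound σ m G Q H, IntegralBound m G Q H, GroupFinite σ m G Q H]) ∧
    ∀ (K : Type) [Field K] [NumberField K] (σ : K →+* ℂ) (m N s g q w : ℕ)
      (G : Fin g → MvPolynomial (Fin (N + 1 + s)) (𝓞 K))
      (E : Fin q → Fin w → MvPolynomial (Fin (N + 1 + s)) ℂ) (d : Fin q → Fin w → ℕ)
      (Q : MvPolynomial (Fin (N + 1 + s)) (𝓞 K)), GeneralTypePair σ G E d Q →
      ∃ H : MvPolynomial (Fin (N + 1 + s)) (𝓞 K), (∃ n, H.IsHomogeneous n) ∧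
        (∃ z, Off σ G Q z ∧ aeval z (map (emb σ) H) ≠ 0) ∧
        AllSix (r := 0) σ m (fun j => rename Sum.inr (G j)) (rename Sum.inr Q)
          (fun _ : Unit => rename Sum.inr H) := by
  have main : ∀ (K : Type) [Field K] [NumberField K] (σ : K →+* ℂ) (m r M : ℕ) (ι κ : Type)
      [Finite ι] (G : ι → MvPolynomial (Fin r ⊕ Fin M) (𝓞 K))
      (Q : MvPolynomial (Fin r ⊕ Fin M) (𝓞 K)) (H : κ → MvPolynomial (Fin r ⊕ Fin M) (𝓞 K)),
      List.TFAE [EntireIn σ m G Q H, IntegralFinite m G Q H, GmIn σ m G Q H,
        EntireBound σ m G Q H, IntegralBound m G Q H, GroupFinite σ m G Q H] := by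
    intro K _ _ σ m r M ι κ _ G Q H
    tfae_have 1 → 3 := gm_of_entire σ m G Q H
    tfae_have 3 → 4 := entire_of_gm σ m G Q H
    tfae_have 4 → 1 := entire_of_bound σ m G Q H
    tfae_have 3 → 5 := bound_of_gm σ m G Q H
    tfae_have 5 → 2 := finite_of_bound m G Q H
    tfae_have 2 → 3 := gm_of_finite σ m G Q H
    tfae_have 3 → 6 := group_of_gm σ m G Q H
    tfae_have 6 → 3 := gm_of_group σ m G Q H
    tfae_finish
  refine ⟨main, ?_⟩
  rintro K _ _ σ m N s g q w G E d Q
    ⟨hG', hE, ⟨δ, hQh⟩, hdim, hsm, hirr, hlgt, hQ, hne⟩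
  choose e hG using hG'
  obtain ⟨H, hH, ⟨z, hz1, hz2, hz3, hz4⟩, hHc⟩ :=
    lgt σ m G E Q hG hE hdim hsm hirr hlgt hQh hQ hne
  refine ⟨H, hH, ⟨z, ⟨hz1, hz2, hz3⟩, hz4⟩, ?_⟩
  have hval : ∀ (t : Fin 0 → ℂ) (x : Fin (N + 1 + s) → ℂ)
      (P : MvPolynomial (Fin (N + 1 + s)) (𝓞 K)),
      val (emb σ) t x (rename Sum.inr P) = eval₂ (emb σ) x P := by
    intro t x P
    rw [val, eval₂_rename]
    rfl
  have hgm : GmIn (r := 0) σ m (fun j => rename Sum.inr (G j)) (rename Sum.inr Q)
      (fun _ : Unit => rename Sum.inr H) := by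
    intro t0 a b hU hnc t ht j
    rw [hval]
    refine hHc a b ⟨fun t ht => ?_, hnc⟩ t ht
    obtain ⟨h1, h2⟩ := hU t ht
    refine ⟨fun j => ?_, ?_⟩
    · have := h1 j
      rwa [hval] at this
    · rwa [hval] at h2
  have htf := main K σ m 0 (N + 1 + s) (Fin g) Unit (fun j => rename Sum.inr (G j))
    (rename Sum.inr Q) (fun _ : Unit => rename Sum.inr H)
  exact ⟨(htf.out 0 2).mpr hgm, (htf.out 1 2).mpr hgm, hgm, (htf.out 3 2).mpr hgm,
    (htf.out 4 2).mpr hgm, (htf.out 5 2).mpr hgm⟩

end Pool.Agent.Results.MP_e97a4d_nt.BoundedComplexity
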