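import Mathlib
import Pool.Agent.W2helper42.RB.Cor

/-!
# The relative Bombieri-Lang-Vojta equivalence for affine varieties linear over a torus

`K` is a number field with an embedding `σ` in `ℂ`, `V` is the closed subscheme of the affine space
of dimension `n` over `𝓞 K` given by the polynomials `F`, and `V'` the closed subset of `V` given by
`G`. Let `U` be a set of coordinates without zeros on `V`, and `A` an arbitrary set of coordinates,
the coordinates of the base. We suppose that the fibres of `V` over the product of the torus with the
coordinates in `U` and of the affine space with the coordinates in `A` are linear: the polynomials
have degree at most one in the other coordinates. (More generally, it is enough that those points of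
`V` outside `V'` which are not alone in their fibre lie on nonconstant maps `𝔾ₘ → V` which do not
move the coordinates in `A`.) Then the following are equivalent.

* `IntegralBound`: for all number fields `L ⊇ K` and all finite sets `S` of places, the heights of the
  coordinates of the `S`-integral points `x` of `V` outside `V'` are bounded by
  `C (1 + ∑ i ∈ A, h (x i))`;
* `EntireBound`: for all entire curves `f` in `V` which do not lie in `V'`, the characteristic
  functions of the coordinates are bounded by `C (1 + ∑ i ∈ A, T (f i, r))`, outside a set of radii of
  finite measure;
* `VertGmIn`: the nonconstant maps `𝔾ₘ → V` which do not move the coordinates in `A` lie in `V'`.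

If `A` is empty, this is the equivalence of the conditions of the Bombieri-Lang-Vojta conjecture:
`V (O_S) ∖ V' (O_S)` is always finite; every nonconstant entire curve in `V` lies in `V'`; every
nonconstant map `𝔾ₘ → V` lies in `V'`.

Proof. Consider a sequence of integral points, or an entire curve, for which the bound does not
hold. The ring of the germs of integral elements of height at most proportional to that of the
sequence (of the entire functions with characteristic at most proportional to that of the curve)
has many relations with the units: the subspace theorem, and the second main theorem of Nevanlinna
and Cartan, with moving targets. So a linear system whose coefficients are polynomials in units and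
in small elements, and which has a solution in that ring, has a second solution, or it keeps having a
solution if the units are moved along a one-parameter group (`N754.MT.main`).
-/

set_option autoImplicit false

namespace Pool.Agent.Results.MP_e97a4d_nt.LinearOverTorus

open MvPolynomial
open Pool.Agent.W2helper42.RB
open Pool.Agent.H159R3.Exp (FinitelyManyIntegral)
open Pool.Agent.W235.RM (GmCurvesIn EntireCurvesIn)
open scoped NumberField

/-- **The relative Bombieri-Lang-Vojta equivalence for affine varieties linear over a torus.** -/
theorem result {K : Type} [Field K] [NumberField K] (σ : K →+* ℂ) {ι κ : Type} [Finite ι] {n : ℕ}
    (F : ι → MvPolynomial (Fin n) (𝓞 K)) (G : κ → MvPolynomial (Fin n) (𝓞 K))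
    (A U : Finset (Fin n)) (hU : UnitsOn σ F U) (h : LinearOff F A U ∨ Covered σ F G A U) :
    List.TFAE [IntegralBound F G A, EntireBound σ F G A, VertGmIn σ F G A] ∧
    (A = ∅ → List.TFAE [FinitelyManyIntegral F G, EntireCurvesIn σ F G, GmCurvesIn σ F G]) := by
  have hcov : Covered σ F G A U := h.elim (covered_of_linear σ F G A U) fun h => h
  refine ⟨tfae σ F G A U hU hcov, ?_⟩
  rintro rfl
  exact blv σ F G U hU hcov

end Pool.Agent.Results.MP_e97a4d_nt.LinearOverTorus
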