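import Pool.Agent.W2helper38.BV.Red

/-!
# Integral points, entire curves and the subvarieties which are images of open towers

Let `K` be a number field with an embedding `σ` in `ℂ`, let `V` be an affine scheme of finite type
over `𝓞 K`, the zeros in affine `N`-space of the polynomials `F`, and let `V'` be the closed subscheme
of `V` given by polynomials `G`. The conditions of the conjecture are

* (i) `EntireCurvesIn σ F G`: all nonconstant entire curves in `V(ℂ)` lie in `V'(ℂ)`;
* (ii) `FinitelyManyIntegral F G`: `V(O_{L,S}) ∖ V'(O_{L,S})` is finite for all finite extensions `L`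
  of `K` and all finite sets `S` of places.

An open tower (`OpenTower`, `Pool/Agent/R882/HO.lean`) is a sequence of generically finite maps
`V 0 ⇢ V 1 ⇢ ... ⇢ V k` of open varieties of dimension `n ≥ 1`. Here `V k` is any open variety which
is covered by images of the multiplicative group (`GmCovered`; for example a torus, the product of any
open variety with the affine line or with `ℂ^*`, or an image of such a product), and each `V i`,
`i < k`, is birational to a component of the set of common zeros in a torus `(ℂ^*) ^ (n + q)` of a
system of Laurent polynomials which is nondegenerate in the sense of Khovanskii, with arbitrary Newton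
polytopes; the boundary of `V i` consists of the prime divisors for which the vector of the orders of
the coordinates is in a given set `S` (if `S` contains all nonzero vectors then `V i` is the subvariety
of the torus itself); `V (i + 1)` is birational to the image of `V i` under monomials
`t l = x ^ (w l)`, where `ℂ(V i) = ℂ(V (i + 1))(y)` for a monomial `y = x ^ v`, and the boundary of
`V i` is the preimage of the boundary of `V (i + 1)`; there are columns for
`s i = s / (b 0 ⋯ b (i - 1))`, `b i` the degree of `V i` over `V (i + 1)` (inequalities for Newton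
polytopes, see the definition).

Let `X` be any subvariety of `V(ℂ)` of dimension `n`, or any open subset `G l ≠ 0` of a subvariety,
for which there is a dominant rational map `V 0 → X` of degree `r` (without any relation to the
tower), where there are columns for `s = 2 r`, such that the boundary of `V 0` is the preimage of the
boundary of `X`, and which is not of logarithmic general type (`NonGeneralTowerImage X`).

The theorem: if each point of `V(ℂ)` outside a closed subscheme `W` of `V` lies on such an `X ⊆ V(ℂ)`,
then for ALL closed subschemes `V'` condition (i) for `V`, `V'` is equivalent to `V ∖ W ⊆ V'` and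
condition (i) for `W`, `V' ∩ W`; and the same is true for condition (ii).

So if (i) and (ii) are equivalent for `W` and all closed subschemes then they are equivalent for `V`
and all closed subschemes (`transfer` below); if `W(ℂ)` is finite (for example `W = ∅`), then (i) and
(ii) are equivalent for `V` and all `V'`, and each is equivalent to `V ∖ W ⊆ V'` (`finite_case` below).
-/

set_option autoImplicit false
set_option linter.overlappingInstances false

namespace Pool.Agent.Results.MP_e97a4d_nt.OpenTowerSubvarieties

open MvPolynomial FF Pool.Agent.Y199.NN Pool.Agent.Y199.NG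
open Pool.Agent.W602.GT (LogGeneralType)
open Pool.Agent.R882.HO (OpenTower)
open Pool.Agent.W2helper38.GG (GmCovered)
open Pool.Agent.W2helper38.BV (NonGeneralTowerImage CPts)
open Pool.Agent.H159R3.Exp (FinitelyManyIntegral)
open Pool.Agent.W235.RM (EntireCurvesIn)
open scoped NumberField

/-- If the open variety `V ∖ W` is covered by images of open towers not of logarithmic general type
then (i) holds for `V`, `V'` iff `V ∖ W ⊆ V'` and (i) holds for `W`, `V' ∩ W`; the same for (ii). -/
theorem result {K : Type} [Field K] [NumberField K] (σ : K →+* ℂ) {N : ℕ} {ι ι' : Type}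
    (F : ι → MvPolynomial (Fin N) (𝓞 K)) (F' : ι' → MvPolynomial (Fin N) (𝓞 K))
    -- `W` is the closed subscheme of `V` given by `F'`
    (h : ∀ P ∈ CPts σ F, P ∉ CPts σ F' → ∃ X, NonGeneralTowerImage X ∧ P ∈ X ∧ X ⊆ CPts σ F)
    {κ : Type} (G : κ → MvPolynomial (Fin N) (𝓞 K)) :
    (EntireCurvesIn σ F G ↔
      CPts σ F ⊆ CPts σ F' ∪ CPts σ G ∧ EntireCurvesIn σ (Sum.elim F F') G) ∧
    (FinitelyManyIntegral F G ↔
      CPts σ F ⊆ CPts σ F' ∪ CPts σ G ∧ FinitelyManyIntegral (Sum.elim F F') G) :=
  Pool.Agent.W2helper38.BV.reduction σ F F' G h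

/-- So the equivalence of (i) and (ii) is transferred from `W` to `V`. -/
theorem transfer {K : Type} [Field K] [NumberField K] (σ : K →+* ℂ) {N : ℕ} {ι ι' : Type}
    (F : ι → MvPolynomial (Fin N) (𝓞 K)) (F' : ι' → MvPolynomial (Fin N) (𝓞 K))
    (h : ∀ P ∈ CPts σ F, P ∉ CPts σ F' → ∃ X, NonGeneralTowerImage X ∧ P ∈ X ∧ X ⊆ CPts σ F)
    (hW : ∀ (κ : Type) (G : κ → MvPolynomial (Fin N) (𝓞 K)),
      EntireCurvesIn σ (Sum.elim F F') G ↔ FinitelyManyIntegral (Sum.elim F F') G)
    (κ : Type) (G : κ → MvPolynomial (Fin N) (𝓞 K)) :
    EntireCurvesIn σ F G ↔ FinitelyManyIntegral F G := by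
  rw [(result σ F F' h G).1, (result σ F F' h G).2, hW κ G]

/-- For finite `W(ℂ)` both conditions are equivalent to `V ∖ W ⊆ V'`. -/
theorem finite_case {K : Type} [Field K] [NumberField K] (σ : K →+* ℂ) {N : ℕ} {ι ι' : Type}
    (F : ι → MvPolynomial (Fin N) (𝓞 K)) (F' : ι' → MvPolynomial (Fin N) (𝓞 K))
    (h : ∀ P ∈ CPts σ F, P ∉ CPts σ F' → ∃ X, NonGeneralTowerImage X ∧ P ∈ X ∧ X ⊆ CPts σ F)
    (hW : (CPts σ F ∩ CPts σ F').Finite) (κ : Type) (G : κ → MvPolynomial (Fin N) (𝓞 K)) :
    (EntireCurvesIn σ F G ↔ FinitelyManyIntegral F G) ∧
      (EntireCurvesIn σ F G ↔ CPts σ F ⊆ CPts σ F' ∪ CPts σ G) :=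
  Pool.Agent.W2helper38.BV.reduction_finite σ F F' G h hW

end Pool.Agent.Results.MP_e97a4d_nt.OpenTowerSubvarieties
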