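import Mathlib
import Pool.Agent.W2helper42.CX.Conv

/-!
# The Bombieri-Lang-Vojta equivalence for points and curves of bounded complexity over the units

`K` is a number field with an embedding `σ` in `ℂ`; `V` is any closed subscheme of the affine space
of dimension `n` over `𝓞 K`, given by finitely many polynomials `F`; `V'` is any closed subset of `V`,
given by `G`; and `A` is any set of coordinates, the coordinates of a base.

* `Cx B m` is the set of the elements which are obtained from those of `B` by at most `m` rounds of
  additions, multiplications and divisions.
* An `S`-integral point `x` of `V` has complexity at most `m` over the `S`-integers `a₁, …, aₘ` if its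
  coordinates lie in `Cx B m`, where `B` consists of the `aᵢ` and of ALL `S`-units. (The units have
  arbitrary heights, and there are no conditions on the number of bases.)
* An entire curve `f` in `V` has complexity at most `m` over the entire functions `a₁, …, aₘ` if its
  coordinates agree, outside a discrete set, with elements of `Cx B m`, where `B` consists of the `aᵢ`
  and of ALL entire functions without zeros.

Then the following are equivalent, for all `V`, all `V'` and all `A`.

* `ArithBound`: for all number fields `L ⊇ K`, all finite sets `S` of places and all `m`, the heights of
  the `S`-integral points `x` of `V` outside `V'`, which have complexity at most `m` over `a₁, …, aₘ`,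
  are bounded by `C (1 + ∑ i ∈ A, h (x i) + ∑ h (aᵢ))`, where `C` only depends on `L`, `S` and `m`.
* `CurveBound`: the characteristic functions of the entire curves `f` in `V` which do not lie in `V'`,
  and which have complexity at most `m` over `a₁, …, aₘ`, are bounded by
  `C (1 + ∑ i ∈ A, T (f i, r) + ∑ T (aᵢ, r))` outside a set of radii of finite measure.
* `VertGmIn`: the nonconstant maps `𝔾ₘ → V` which do not move the coordinates in `A` lie in `V'`.

If `A` is empty, then these conditions are equivalent to

* `ArithFinite`: for all `L`, `S`, `m`, `B`, the `S`-integral points of `V` outside `V'` which have
  complexity at most `m` over `S`-integers of height at most `B` are finite in number;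
* `UnitCurvesIn`: the nonconstant entire curves in `V` which have bounded complexity over the entire
  functions without zeros lie in `V'`;
* `GmCurvesIn`: the nonconstant maps `𝔾ₘ → V` lie in `V'`,

and they follow from each of the conditions (i) and (ii) of the problem. So, whenever (i) or (ii) holds,
the points and the curves which could violate the other one are incompressible: they cannot be
computed from units and from elements of smaller height in a bounded number of steps.

Proof. The coordinates are quotients of sums of `M` products of a monomial of degree `D` in the `aᵢ` and
a unit. The coefficients and the units are new variables, and the numbers `M` and `D` are chosen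
minimal; this gives an auxiliary variety over `V`, with an open part on which the coordinates of `V` and
the units determine each other up to linear equations. The points of the auxiliary variety outside
the preimage of `V'` which are not alone in their fibre over the torus and the coefficients lie on
nonconstant maps from `𝔾ₘ` (`CX.covered_FF`), and the maps from `𝔾ₘ` to it which do not move the
coefficients map to points of `V` or to maps from `𝔾ₘ` to `V` which do not move the coordinates in `A`;
the former contradict the minimality (`CX.vert_FF`). So the relative theorem for varieties linear over
a torus (`LinearOverTorus`) applies to the auxiliary variety. Conversely, a map from `𝔾ₘ` descends to a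
number field and takes values of bounded complexity at the units.
-/

set_option autoImplicit false

namespace Pool.Agent.Results.MP_e97a4d_nt.PointsOfBoundedComplexity

open MvPolynomial
open Pool.Agent.W2helper42.RB Pool.Agent.W2helper42.CX
open Pool.Agent.H159R3.Exp (FinitelyManyIntegral)
open Pool.Agent.W235.RM (GmCurvesIn EntireCurvesIn)
open scoped NumberField

/-- **The Bombieri-Lang-Vojta equivalence, relative and absolute, for the integral points and the
entire curves of bounded complexity over the units, on all affine varieties.** -/
theorem result {K : Type} [Field K] [NumberField K] (σ : K →+* ℂ) {ι κ : Type} [Finite ι] {n : ℕ}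
    (F : ι → MvPolynomial (Fin n) (𝓞 K)) (G : κ → MvPolynomial (Fin n) (𝓞 K))
    (A : Finset (Fin n)) :
    List.TFAE [ArithBound F G A, CurveBound σ F G A, VertGmIn σ F G A] ∧
    List.TFAE [ArithBound F G ∅, ArithFinite F G, CurveBound σ F G ∅, UnitCurvesIn σ F G,
      GmCurvesIn σ F G] ∧
    (EntireCurvesIn σ F G ∨ FinitelyManyIntegral F G → ArithBound F G ∅ ∧ CurveBound σ F G ∅) := by
  have h1 := tfae_rel σ F G A
  have h2 := tfae_abs σ F G
  refine ⟨?_, ?_, ?_⟩
  · tfae_have 1 ↔ 3 := h1.out 1 0
    tfae_have 2 ↔ 3 := h1.out 2 0
    tfae_finish
  · tfae_have 1 ↔ 5 := h2.out 1 0
    tfae_have 2 ↔ 5 := h2.out 2 0
    tfae_have 3 ↔ 5 := h2.out 3 0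
    tfae_have 4 ↔ 5 := h2.out 4 0
    tfae_finish
  · intro h
    have h3 : GmCurvesIn σ F G := by
      rw [← propext (gm_empty σ F G)]
      rcases h with h | h
      · exact vert_of_entire σ F G ∅ ((entire_empty σ F G).2 h)
      · exact vert_of_integral σ F G ∅ ((integral_empty F G).2 h)
    exact ⟨(h2.out 0 1).1 h3, (h2.out 0 3).1 h3⟩

end Pool.Agent.Results.MP_e97a4d_nt.PointsOfBoundedComplexity
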